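import Pool.Agent.Q5.SH.Fin1
import Pool.Agent.Q195.SH.BCM

/-!
# The Sigma-Leopoldt conjecture for infinitely many characters of every order `p ^ m`

`K` is a CM field with maximal totally real subfield `F`, `p` an odd prime which is unramified in `K`,
`S` a `p`-ordinary CM type of `K` (with values in `ℂ_p`) and `m ≥ 1`.  Then there are infinitely many cyclic
extensions `H/K` of degree `p ^ m` such that the Sigma-Leopoldt conjecture holds for all nontrivial
characters of `Gal(H/K)`.  No hypothesis on Leopoldt's conjecture for `F` is needed.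

The proof is a joint work of the team (project SH): helper5 (plan), helper65, helper68, helper96, helper149,
helper193, helper195, helper198, helper222, helper224, helper238, helper248, helper261, helper262.
-/

set_option autoImplicit false

namespace Pool.Agent.Results.MP_fc6b1e_nt.CharactersOfEveryOrder

open NumberField IsDedekindDomain Module

/-- `p` is unramified in `K`: the ideal `(p)` is a radical ideal. -/
def Unramified (K : Type) [Field K] [NumberField K] (p : ℕ) : Prop :=
  (Ideal.span {(p : 𝓞 K)}).IsRadical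

/-- The CM type `S` is `p`-ordinary: embeddings which define the same absolute value (the same prime of
`K` above `p`) are both in `S` or both not in `S`. -/
def Ordinary {p : ℕ} [Fact p.Prime] {K : Type} [Field K] (S : Set (K →+* ℂ_[p])) : Prop :=
  ∀ σ ∈ S, ∀ τ : K →+* ℂ_[p], (∀ x : K, ‖τ x‖ = ‖σ x‖) → τ ∈ S

/-- The prime `v` of `K` is unramified in the extension `H`: no prime `w` of `H` above `v` has `w² ∣ v`. -/
def UnramifiedIn {K : Type} [Field K] [NumberField K] (v : HeightOneSpectrum (𝓞 K)) (H : Type) [Field H]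
    [NumberField H] [Algebra K H] : Prop :=
  ∀ w : HeightOneSpectrum (𝓞 H), w.under (𝓞 K) = v →
    ¬ v.asIdeal.map (algebraMap (𝓞 K) (𝓞 H)) ≤ w.asIdeal ^ 2

/-- The primes of `K` which ramify in `H` are exactly the elements of `T`. -/
def RamifiedAt {K : Type} [Field K] [NumberField K] (T : Finset (HeightOneSpectrum (𝓞 K))) (H : Type)
    [Field H] [NumberField H] [Algebra K H] : Prop :=
  ∀ v : HeightOneSpectrum (𝓞 K), UnramifiedIn v H ↔ v ∉ T

/-- The Sigma-Leopoldt conjecture holds for all nontrivial characters of the cyclic extension `H/K`: for all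
subfields `E ≠ K` and all faithful characters of `Gal(E/K)`. -/
def AllCharacters {p : ℕ} [Fact p.Prime] {K : Type} [Field K] [NumberField K] (S : Set (K →+* ℂ_[p]))
    (H : Type) [Field H] [NumberField H] [Algebra K H] : Prop :=
  ∀ E : IntermediateField K H, E ≠ ⊥ → ∀ χ : (E ≃ₐ[K] E) →* ℂ_[p]ˣ, Function.Injective χ →
    Pool.Agent.W289.SL.SigmaLeopoldt p K E S χ

/-- There is a cyclic extension of degree `p ^ m`, ramified exactly at `T`, such that the conjecture holds
for all its nontrivial characters. -/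
def Exists {p : ℕ} [Fact p.Prime] {K : Type} [Field K] [NumberField K] (S : Set (K →+* ℂ_[p])) (m : ℕ)
    (T : Finset (HeightOneSpectrum (𝓞 K))) : Prop :=
  ∃ (H : Type) (_ : Field H) (_ : NumberField H) (_ : Algebra K H) (_ : IsGalois K H),
    IsCyclic (H ≃ₐ[K] H) ∧ finrank K H = p ^ m ∧ RamifiedAt T H ∧ AllCharacters S H

theorem result (p : ℕ) [Fact p.Prime] (hp : p ≠ 2)
    (F K : Type) [Field F] [NumberField F]
    [Field K] [NumberField K] [IsTotallyReal F] [IsTotallyComplex K] [Algebra F K]
    (hFK : finrank F K = 2) (hK : Unramified K p) (S : Set (K →+* ℂ_[p]))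
    (hCM : Pool.Agent.W289.SL.IsCMType p F K S) (hS : Ordinary S) (m : ℕ) (hm : 1 ≤ m)
    (B : Set (HeightOneSpectrum (𝓞 K))) (hB : B.Finite) :
    ∃ T : Finset (HeightOneSpectrum (𝓞 K)), T.Nonempty ∧ (∀ v ∈ T, v ∉ B) ∧ Exists S m T := by
  obtain ⟨hBig, hτ⟩ := Pool.Agent.Q195.SH.bcm p F K hFK hK S hCM hS
  obtain ⟨T, hne, hTB, H, i1, i2, i3, i4, g, hg, hd, hun, hH, hbad⟩ :=
    Pool.Agent.Q5.SH.main1 hp hK S hS hBig m hm (Or.inr hτ) B hB
  refine ⟨T, hne, hTB, H, i1, i2, i3, i4, ⟨g, hg⟩, hd, hun, ?_⟩
  intro E hE χ hχ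
  have hdvd : finrank K E ∣ p ^ m := by
    rw [← hd]
    exact ⟨finrank E H, (finrank_mul_finrank K E H).symm⟩
  obtain ⟨j, hjm, hj⟩ := (Nat.dvd_prime_pow (Fact.out : p.Prime)).1 hdvd
  have hj1 : 1 ≤ j := by
    rcases Nat.eq_zero_or_pos j with h | h
    · exfalso
      rw [h, pow_zero] at hj
      exact hE (IntermediateField.finrank_eq_one_iff.1 hj)
    · exact h
  exact Pool.Agent.Q5.SH.layerHolds_of_not_bad hp hH S hS g hg m 1 hd j hj1 hjm (hbad j hj1 hjm) E hj χ hχ

end Pool.Agent.Results.MP_fc6b1e_nt.CharactersOfEveryOrder
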