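import Pool.Agent.Q7.LK.All2
import Pool.Agent.Q7.LK.Uni

/-!
# The `Σ`-Leopoldt conjecture for most characters of odd prime order `p`

Let `p` be an odd prime, `K/F` a quadratic extension of number fields such that `K` contains a primitive `p`-th root of
unity (for instance `K` any CM field containing the `p`-th roots of unity and `F` its maximal totally real subfield) and `S`
a `p`-ordinary CM type of `K` with values in `ℂ_p`: `Hom(K, ℂ_p)` is the disjoint union of `S` and `S ∘ c`, and
embeddings which define the same prime of `K` above `p` are both in `S` or both not in `S`.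

The characters of order `p` of `K` belong to the extensions `H = K(d^(1/p))` of degree `p`. Prescribe the completions of `H` at
all places above the prime numbers `≤ y` (those of `K(d₀^(1/p))`) and the orders `z_i ≠ 0` modulo `p` of `d` at `k` further
primes `q_0, …, q_(k-1)`, of norms `≤ X_0, …, X_(k-1)` (the extension is unramified at all other primes), for large `k`, `X_0`,
then `X_1` large in terms of `X_0`, and so on.

Theorem. For at least the share `1 - 1/(p-1) - ε` of these `H` the `Σ`-Leopoldt conjecture for `S` is true for all nontrivial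
characters of `Gal(H/K)`. (So for at least one half of the `H` if `p = 3`, three quarters if `p = 5`.)

Proof. The kernel of the regulator map on the `χ`-part gives `p`-adic relations, at the places of `S`, between the units of
relative norm `1` of `H`; as in `MostCyclicExtensions` (MP_5f2860_nt) they give a unit `w` of relative norm `1`, by Hilbert's
theorem 90 `w = σ(y)/y`, and the number `a = N(y) ∈ K`, which is not a power of `d` up to `p`-th powers, has order divisible
by `p` at the unramified primes, is locally a power of `d` at the ramified ones and belongs to one of `p` local classes at the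
places above `p` of `S`. At the other places above `p` it is a local norm, which is one of `p^([K_v : ℚ_p] + 1)` classes
(nondegeneracy of the Hilbert symbol). As `S` is a CM type the sum of these local degrees is the number `r` of the complex places
of `K`, so that the mean of the number of the nontrivial `a` (modulo powers of `d`) is at most `p^r p^(-r) = 1`; with
`a` also `a^2, …, a^(p-1)` are nontrivial.

The parts were proved together with helpers 14, 22, 65, 123, 129, 150, 153, 162, 224, 241, 262, 265, 277 and 285.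
-/

set_option autoImplicit false

namespace Pool.Agent.Results.MP_fc6b1e_nt.MostCharactersOfOrderP

open NumberField IsDedekindDomain Filter Topology
open Pool.Agent.W289.SL (IsCMType SigmaLeopoldt)

section Ensemble

variable {K : Type} [Field K] [NumberField K]

/-- The order of `a` at `v` modulo `p`. -/
noncomputable def orderMod (p : ℕ) (v : HeightOneSpectrum (𝓞 K)) (a : K) : ZMod p :=
  -((WithZero.log (v.valuation K a) : ℤ) : ZMod p)

/-- `a` is the `p`-th power of a nonzero element of the completion of `K` at `v`. -/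
def PowerAt (p : ℕ) (v : HeightOneSpectrum (𝓞 K)) (a : K) : Prop :=
  a ≠ 0 ∧ ∃ s : v.adicCompletion K, (a : v.adicCompletion K) = s ^ p

/-- `v` lies above a prime number `l ≤ y`. -/
def Small (y : ℕ) (v : HeightOneSpectrum (𝓞 K)) : Prop :=
  ∃ l : ℕ, l.Prime ∧ l ≤ y ∧ (l : 𝓞 K) ∈ v.asIdeal

open Classical in
/-- Among the primes not above prime numbers `≤ y` the order of `d` modulo `p` is `z i` at the prime `q i` and `0` at the
others; and at the primes above prime numbers `≤ y` the number `d` is equal to `d₀` up to local `p`-th powers. So for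
nonzero `z i` and different `q i` the extension `K(d^(1/p))` is ramified, among the primes not above prime numbers
`≤ y`, exactly at the `q i`, and its completions at the other primes are those of `K(d₀^(1/p))`. -/
structure Fits (p y : ℕ) (d₀ : K) {k : ℕ} (z : Fin k → ZMod p) (q : Fin k → HeightOneSpectrum (𝓞 K)) (d : K) :
    Prop where
  ne : d ≠ 0
  ram : ∀ v : HeightOneSpectrum (𝓞 K), ¬ Small y v → orderMod p v d = ∑ i, if q i = v then z i else 0
  loc : ∀ v : HeightOneSpectrum (𝓞 K), Small y v → PowerAt p v (d / d₀)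

/-- The ensemble: the tuples of `k` different primes `q i`, not above prime numbers `≤ y`, of norm `≤ X i`, to which a
`d` belongs. -/
def Ensemble (p y : ℕ) (d₀ : K) {k : ℕ} (z : Fin k → ZMod p) (X : Fin k → ℕ) : Set (Fin k → HeightOneSpectrum (𝓞 K)) :=
  {q | (Function.Injective q ∧ ∀ i, ¬ Small y (q i) ∧ Ideal.absNorm (q i).asIdeal ≤ X i) ∧
    ∃ d, Fits p y d₀ z q d}

end Ensemble

/-- `P X` is true for all large `X 0`, for all `X 1` which are large in terms of `X 0`, …, for all `X (k-1)` which are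
large in terms of the others. -/
def Nested : (k : ℕ) → ((Fin k → ℕ) → Prop) → Prop
  | 0, P => P Fin.elim0
  | k + 1, P => Nested k fun X => ∀ᶠ x : ℕ in atTop, P (Fin.snoc (α := fun _ => ℕ) X x)

/-- `H` is the extension `K(d^(1/p))`, of degree `p`. -/
structure IsKummer (p : ℕ) (K H : Type) [Field K] [Field H] [Algebra K H] (d : K) : Prop where
  deg : Module.finrank K H = p
  root : ∃ x : H, x ^ p = algebraMap K H d

/-- `S` is `p`-ordinary: embeddings which define the same prime of `K` above `p` are both in `S` or both not in `S`. -/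
def Ordinary {p : ℕ} [Fact p.Prime] {K : Type} [Field K] (S : Set (K →+* ℂ_[p])) : Prop :=
  ∀ σ τ : K →+* ℂ_[p], (∀ x : 𝓞 K, ‖σ (x : K)‖ < 1 ↔ ‖τ (x : K)‖ < 1) → (σ ∈ S ↔ τ ∈ S)

section Proof

theorem nested_iff : ∀ (k : ℕ) (P : (Fin k → ℕ) → Prop), Nested k P ↔ Q283.LQ.Nest k P
  | 0, _ => Iff.rfl
  | k + 1, _ => nested_iff k _

variable {K : Type} [Field K] [NumberField K]

theorem fits_iff {p : ℕ} [Fact p.Prime] {y : ℕ} {d₀ : K} {k : ℕ} {z : Fin k → ZMod p}
    {q : Fin k → HeightOneSpectrum (𝓞 K)} {d : K} : Fits p y d₀ z q d ↔ Q7.LK.Fits p y d₀ z q d := by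
  constructor
  · intro h
    exact ⟨h.ne, h.ram, fun v hv => (Q7.LK.t_CPL p K v _).mpr (h.loc v hv)⟩
  · intro h
    exact ⟨h.ne, h.ram, fun v hv => (Q7.LK.t_CPL p K v _).mp (h.loc v hv)⟩

end Proof

/-- **Main result.** -/
theorem result (p : ℕ) [Fact p.Prime] (hp : p ≠ 2) (F K : Type) [Field F] [NumberField F] [Field K] [NumberField K]
    [Algebra F K] (hFK : Module.finrank F K = 2) (ζ : K) (hζ : IsPrimitiveRoot ζ p) :
    ∃ y₀ : ℕ, ∀ y, y₀ ≤ y → ∀ d₀ : K, d₀ ≠ 0 →
      (∀ (k : ℕ) (z : Fin k → ZMod p) (q : Fin k → HeightOneSpectrum (𝓞 K)) (d d' : K),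
        Fits p y d₀ z q d → Fits p y d₀ z q d' → ∃ x : K, d = d' * x ^ p) ∧
      ∀ S : Set (K →+* ℂ_[p]), IsCMType p F K S → Ordinary S → ∀ ε : ℝ, 0 < ε →
      ∃ k₀ : ℕ, ∀ k, k₀ ≤ k → ∀ z : Fin k → ZMod p, (∀ i, z i ≠ 0) → Nested k fun X =>
        (Ensemble p y d₀ z X).Finite ∧ (Ensemble p y d₀ z X).Nonempty ∧
        (1 - 1 / ((p : ℝ) - 1) - ε) * (Ensemble p y d₀ z X).ncard ≤
          ({q ∈ Ensemble p y d₀ z X | ∀ (d : K) (H : Type) [Field H] [NumberField H] [Algebra K H],
            Fits p y d₀ z q d → IsKummer p K H d →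
              ∀ χ : (H ≃ₐ[K] H) →* ℂ_[p]ˣ, χ ≠ 1 → SigmaLeopoldt p K H S χ}.ncard : ℝ) := by
  obtain ⟨y1, hy1⟩ := Q7.LK.t_FIN2 p hp F K hFK ζ hζ
  obtain ⟨y2, hy2⟩ := Q7.LK.uniq Q7.LK.t_BAS Q7.LK.t_BASE p hp K ζ hζ
  refine ⟨max y1 y2, fun y hy d₀ hd₀ => ⟨fun k z q d d' hd hd' => ?_, fun S hCM hS ε hε => ?_⟩⟩
  · obtain ⟨x, hx⟩ := hy2 y (le_trans (le_max_right _ _) hy) d₀ hd₀ k z q d d' (fits_iff.mp hd) (fits_iff.mp hd')
    refine ⟨x, ?_⟩
    rw [← hx, mul_div_cancel₀ _ hd'.ne]
  obtain ⟨k0, hk0⟩ := hy1 y (le_trans (le_max_left _ _) hy) S hCM hS d₀ hd₀ ε hε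
  refine ⟨k0, fun k hk z hz => (nested_iff k _).mpr (Q7.LK.nest_mono k _ _ (fun X hX => ?_) (hk0 k hk z hz))⟩
  obtain ⟨hfin, hpos, hN⟩ := hX
  have hE : Ensemble p y d₀ z X =
      {q ∈ (Q283.LQ.Box y X : Set (Fin k → HeightOneSpectrum (𝓞 K))) | ∃ d, Q7.LK.Fits p y d₀ z q d} := by
    ext q
    simp only [Ensemble, Q283.LQ.Box, Set.mem_ofPred_eq, fits_iff]
    rfl
  have hEfin : (Ensemble p y d₀ z X).Finite := by
    rw [hE]
    exact hfin.subset (fun q hq => hq.1)
  rw [← hE] at hpos hN
  refine ⟨hEfin, ?_, le_trans hN ?_⟩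
  · rw [← Set.ncard_pos hEfin]
    exact_mod_cast hpos
  · have h2 : {q ∈ (Q283.LQ.Box y X : Set (Fin k → HeightOneSpectrum (𝓞 K))) | (∃ d, Q7.LK.Fits p y d₀ z q d) ∧
          ∀ d, Q7.LK.Fits p y d₀ z q d → ∀ (H : Type) [Field H] [NumberField H] [Algebra K H], Q7.LK.Kum p K H d →
            ∀ χ : (H ≃ₐ[K] H) →* ℂ_[p]ˣ, χ ≠ 1 → SigmaLeopoldt p K H S χ} ⊆
        {q ∈ Ensemble p y d₀ z X | ∀ (d : K) (H : Type) [Field H] [NumberField H] [Algebra K H],
            Fits p y d₀ z q d → IsKummer p K H d →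
              ∀ χ : (H ≃ₐ[K] H) →* ℂ_[p]ˣ, χ ≠ 1 → SigmaLeopoldt p K H S χ} := by
      rintro q ⟨hq, hd, h⟩
      refine ⟨?_, fun d H _ _ _ hf hH χ hχ => h d (fits_iff.mp hf) H ⟨hH.deg, hH.root⟩ χ hχ⟩
      rw [hE]
      exact ⟨hq, hd⟩
    exact_mod_cast Set.ncard_le_ncard h2 (hEfin.subset (fun q hq => hq.1))

end Pool.Agent.Results.MP_fc6b1e_nt.MostCharactersOfOrderP
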