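import Pool.Agent.Q5.SG.Asm
import Pool.Agent.Q5.SH.Base
import Pool.Agent.Q65.SG.TG
import Pool.Agent.Q150.SG.HX
import Pool.Agent.Q156.SG.CN
import Pool.Agent.Q156.SG.CY
import Pool.Agent.Q177.SG.CX
import Pool.Agent.Q177.SG.IN
import Pool.Agent.Q222.SG.BD
import Pool.Agent.Q222.SG.FN
import Pool.Agent.Q224.SG.BL
import Pool.Agent.Q224.SG.CO
import Pool.Agent.Q25.SG.UK
import Pool.Agent.Q251.SG.CP
import Pool.Agent.Q277.SG.BT
import Pool.Agent.Q56.SG.CC
import Pool.Agent.Q170.SG.SW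
import Pool.Agent.Q170.SG.LC
import Pool.Agent.Q31.SG.LK
import Pool.Agent.Q285.SG.EX
import Pool.Agent.Q170.SG.UR
import Pool.Agent.Helper104.SG.BS
import Pool.Agent.Y944.LC.BRU

/-!
# The Sigma-Leopoldt conjecture for characters of `p`-power order ramified at one prime

`K` is a CM field with maximal totally real subfield `F`, `p` an odd prime which is unramified in `K`, and
`S` a `p`-ordinary CM type of `K` (with values in `ℂ_p`).  If Leopoldt's conjecture holds for `F` and `p` (for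
example if `F/ℚ` is abelian), then there is a number `W` such that for infinitely many primes `𝔮` of `K` the
following holds: there are cyclic extensions of `K` of arbitrarily large `p`-power degree (depending on
`𝔮`) which are unramified outside `𝔮`, and in every cyclic extension of `K` of `p`-power degree `p ^ m`
unramified outside `𝔮` all but at most `W` of the `m` layers satisfy the Sigma-Leopoldt conjecture (for all
faithful characters of their Galois group).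

The proof is a joint work of the team (project SG): helper5 (plan), helper25, helper31, helper38, helper56,
helper65, helper84, helper104, helper150, helper156, helper170, helper177, helper222, helper224, helper241,
helper251, helper277, helper280, helper285, helper290 and others.
-/

set_option autoImplicit false

namespace Pool.Agent.Results.MP_fc6b1e_nt.OneRamifiedPrime

open NumberField IsDedekindDomain Module

/-- `p` is unramified in `K`: the ideal `(p)` is a radical ideal. -/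
def Unramified (K : Type) [Field K] [NumberField K] (p : ℕ) : Prop :=
  (Ideal.span {(p : 𝓞 K)}).IsRadical

/-- The CM type `S` is `p`-ordinary: embeddings which define the same absolute value (the same prime of
`K` above `p`) are both in `S` or both not in `S`. -/
def Ordinary {p : ℕ} [Fact p.Prime] {K : Type} [Field K] (S : Set (K →+* ℂ_[p])) : Prop :=
  ∀ σ ∈ S, ∀ τ : K →+* ℂ_[p], (∀ x : K, ‖τ x‖ = ‖σ x‖) → τ ∈ S

/-- The prime `v` of `K` is unramified in the extension `H`: no prime `w` of `H` above `v` has `w² ∣ v`. -/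
def UnramifiedIn {K : Type} [Field K] [NumberField K] (v : HeightOneSpectrum (𝓞 K)) (H : Type) [Field H]
    [NumberField H] [Algebra K H] : Prop :=
  ∀ w : HeightOneSpectrum (𝓞 H), w.under (𝓞 K) = v →
    ¬ v.asIdeal.map (algebraMap (𝓞 K) (𝓞 H)) ≤ w.asIdeal ^ 2

/-- The extension `H/K` is unramified outside the prime `q`. -/
def Outside {K : Type} [Field K] [NumberField K] (q : HeightOneSpectrum (𝓞 K)) (H : Type) [Field H]
    [NumberField H] [Algebra K H] : Prop :=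
  ∀ v : HeightOneSpectrum (𝓞 K), v ≠ q → UnramifiedIn v H

/-- The layer `j` of the extension `H/K`: the Sigma-Leopoldt conjecture holds for all faithful characters of
`Gal(E/K)`, for the subfields `E` of `H` of degree `p ^ j` over `K`. -/
def LayerHolds {p : ℕ} [Fact p.Prime] {K : Type} [Field K] [NumberField K] (S : Set (K →+* ℂ_[p]))
    (H : Type) [Field H] [NumberField H] [Algebra K H] (j : ℕ) : Prop :=
  ∀ E : IntermediateField K H, finrank K E = p ^ j → ∀ χ : (E ≃ₐ[K] E) →* ℂ_[p]ˣ,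
    Function.Injective χ → Pool.Agent.W289.SL.SigmaLeopoldt p K E S χ

/-- The conclusion: a bound `W` for the number of the exceptional layers, for infinitely many primes `q`. -/
def Bounded {p : ℕ} [Fact p.Prime] {K : Type} [Field K] [NumberField K] (S : Set (K →+* ℂ_[p])) : Prop :=
  ∃ W : ℕ, ∀ (B : Set (HeightOneSpectrum (𝓞 K))), B.Finite → ∀ M : ℕ,
    ∃ q : HeightOneSpectrum (𝓞 K), q ∉ B ∧
      (∃ (H : Type) (_ : Field H) (_ : NumberField H) (_ : Algebra K H) (_ : IsGalois K H) (m : ℕ),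
        M ≤ m ∧ IsCyclic (H ≃ₐ[K] H) ∧ finrank K H = p ^ m ∧ Outside q H) ∧
      ∀ (H : Type) [Field H] [NumberField H] [Algebra K H] [IsGalois K H] (m : ℕ),
        IsCyclic (H ≃ₐ[K] H) → finrank K H = p ^ m → Outside q H →
        {j : ℕ | 1 ≤ j ∧ j ≤ m ∧ ¬ LayerHolds S H j}.ncard ≤ W

theorem result (p : ℕ) [Fact p.Prime] (hp : p ≠ 2) (F K : Type) [Field F] [NumberField F]
    [Field K] [NumberField K] [IsTotallyReal F] [IsTotallyComplex K] [Algebra F K]
    (hFK : finrank F K = 2) (hK : Unramified K p) (S : Set (K →+* ℂ_[p]))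
    (hCM : Pool.Agent.W289.SL.IsCMType p F K S) (hS : Ordinary S)
    (hL : Pool.Agent.H637R2.Leo.Leopoldt F p ∨
      (IsGalois ℚ F ∧ ∀ a b : F ≃ₐ[ℚ] F, a * b = b * a)) : Bounded S := by
  have hL : Pool.Agent.H637R2.Leo.Leopoldt F p := by
    rcases hL with h | ⟨h1, h2⟩
    · exact h
    · exact Pool.Agent.Y944.LC.bru F p h1 h2
  have hUR : Pool.Agent.Q5.SG.S_UR := Pool.Agent.Q170.SG.ur Pool.Agent.Q170.SG.lc
    Pool.Agent.Q31.SG.lk (Pool.Agent.Helper104.SG.bs Pool.Agent.Q5.SH.b_NP Pool.Agent.Q5.SH.b_IG)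
    Pool.Agent.Q5.SH.b_IJ
  have hCY : Pool.Agent.Q5.SG.S_CY := Pool.Agent.Q156.SG.t_CY
  have hCN : Pool.Agent.Q5.SG.S_CN := Pool.Agent.Q156.SG.t_CN
  have hIT : Pool.Agent.Q5.SG.S_IT := Pool.Agent.Q285.SG.it Pool.Agent.Q5.SH.b_SM Pool.Agent.Q5.SH.b_PW
    Pool.Agent.Q5.SH.b_RT
  have hIN : Pool.Agent.Q5.SG.S_IN := Pool.Agent.Q177.SG.t_IN Pool.Agent.Q5.SH.b_SM
    Pool.Agent.Q5.SH.b_PW Pool.Agent.Q5.SH.b_RT Pool.Agent.Q5.SH.b_FE Pool.Agent.Q5.SH.b_VL
    Pool.Agent.Q5.SH.b_EX Pool.Agent.Q5.SH.b_CQ Pool.Agent.Q5.SH.b_QF hIT Pool.Agent.Q5.SH.b_HB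
    Pool.Agent.Q5.SH.b_DV Pool.Agent.Q5.SH.b_RC
  have hBD : Pool.Agent.Q5.SG.S_BD := Pool.Agent.Q222.SG.bd hCY
  have hFN : Pool.Agent.Q5.SG.S_FN := Pool.Agent.Q222.SG.fn Pool.Agent.Q5.SH.b_SM
    Pool.Agent.Q5.SH.b_RT Pool.Agent.Q5.SH.b_RC
  have hBL : Pool.Agent.Q5.SG.S_BL := Pool.Agent.Q224.SG.j_bl hBD
  have hCO : Pool.Agent.Q5.SG.S_CO := Pool.Agent.Q224.SG.j_co Pool.Agent.Q5.SH.b_PW
    Pool.Agent.Q5.SH.b_RC hFN hBL hCN
  have hBT : Pool.Agent.Q5.SG.S_BT := Pool.Agent.Q277.SG.bt Pool.Agent.Q5.SH.b_SM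
    Pool.Agent.Q5.SH.b_PW Pool.Agent.Q5.SH.b_DG
  have hCP : Pool.Agent.Q5.SG.S_CP := Pool.Agent.Q251.SG.cp Pool.Agent.Q5.SH.b_PW
  have hTG : Pool.Agent.Q5.SG.S_TG := Pool.Agent.Q65.SG.tg Pool.Agent.Q5.SH.b_CB
    Pool.Agent.Q5.SH.b_XF Pool.Agent.Q5.SH.b_KP Pool.Agent.Q5.SH.b_KU Pool.Agent.Q170.SG.sw
    Pool.Agent.Q5.SH.b_CH Pool.Agent.Q56.SG.cc
  have hHX : Pool.Agent.Q5.SG.S_HX := Pool.Agent.Q150.SG.hx Pool.Agent.Q177.SG.t_CX hUR
  obtain ⟨n₀, h2⟩ := Pool.Agent.Q5.SG.stage2 Pool.Agent.Q5.SH.b_VL Pool.Agent.Q5.SH.b_PS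
    Pool.Agent.Q5.SH.b_CR Pool.Agent.Q25.SG.uk hBT hCP hTG hHX Pool.Agent.Q5.SH.b_NR
    p hp F K hFK hK hL S hCM hS
  obtain ⟨W, h1⟩ := Pool.Agent.Q5.SG.stage1 Pool.Agent.Q5.SH.b_UH hIN hCO Pool.Agent.Q5.SH.b_TR
    Pool.Agent.Q5.SH.b_SL p hp K hK S hS n₀
  refine ⟨W, fun B hB M => ?_⟩
  obtain ⟨q, hqB, hqp, hq, H, i1, i2, i3, i4, g, m', hg, hm', hd, hr⟩ := h2 M B hB
  refine ⟨q, hqB, ⟨H, i1, i2, i3, i4, m', hm', ⟨g, hg⟩, hd, hr⟩, ?_⟩
  intro H _ _ _ _ m hcyc hd hr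
  obtain ⟨g, hg⟩ := hcyc
  exact h1 q hqp hq H g m hg hd hr

end Pool.Agent.Results.MP_fc6b1e_nt.OneRamifiedPrime
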