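import Pool.Agent.Q7.SG.Fin
import Pool.Agent.Q1.LK.SgA

/-!
# The `Σ`-Leopoldt conjecture at `p = 2` for quadratic characters of CM fields

Let `K/F` be a quadratic extension of number fields, `K` totally complex (for instance a CM field), and `S` a
`2`-ordinary CM type of `K` with values in `ℂ_2`: the disjoint union of `S` and `S ∘ c` is `Hom(K, ℂ_2)`, and two
embeddings which define the same prime of `K` above `2` are both in `S` or both not in `S`.

Theorem.  Prescribe the completions at all places above the rational primes `≤ y` (`y` large).  Among the quadratic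
extensions `H/K` with these completions which are ramified outside at `k` primes (`k` large, the primes ordered by their
size) the `Σ`-Leopoldt conjecture for `S` and the nontrivial character of `Gal(H/K)` holds for a share of at least
`2/7 - ε`, and the share of the `H` for which the kernel of the regulator map has dimension `≥ t` is at most
`1 / ((2 - 1) (2² - 1) ⋯ (2^t - 1)) + ε`, for every `t`.

Proof.  An element of the kernel gives (linear algebra over `ℂ_2`, integrality, part A of helper1) 2-adic relations
between the units of `H` of relative norm `1`; `t` independent relations give `2 ^ t - 1` nontrivial classes in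
`K^*` modulo squares and `-d` with strong local conditions, as in the project LQ of helper283 on Leopoldt's
conjecture.  The sum of the local degrees at the places above `2` where there is no condition is `[K : ℚ] / 2`, the
number of the complex places, so that the mean number of the classes is `1`.  The moments of order one, two and three
of the number of the classes (`Pool.Agent.Q7.LM`) give the bounds.
-/

set_option autoImplicit false

namespace Pool.Agent.Results.MP_fc6b1e_nt.QuadraticCharactersAtTwo

open NumberField IsDedekindDomain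
open Pool.Agent.Q283.LQ Pool.Agent.W289.SL Pool.Agent.Q7.LM Pool.Agent.Q7.SG

/-- **The `Σ`-Leopoldt conjecture at `p = 2` for quadratic characters.** -/
theorem result (F K : Type) [Field F] [NumberField F] [Field K] [NumberField K] [IsTotallyComplex K] [Algebra F K]
    (hFK : Module.finrank F K = 2) :
    ∃ y0 : ℕ, ∀ y, y0 ≤ y →
    ∀ S : Set (K →+* ℂ_[2]), IsCMType 2 F K S → Ordinary S →
    ∀ d0 : K, d0 ≠ 0 → ∀ ε : ℝ, 0 < ε → ∃ k0 : ℕ, ∀ k, k0 ≤ k → Nest k fun X =>
      (Box y X : Set (Fin k → HeightOneSpectrum (𝓞 K))).Finite ∧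
      0 < ({q ∈ (Box y X : Set (Fin k → HeightOneSpectrum (𝓞 K))) | ∃ d, Fits y d0 q d}.ncard : ℝ) ∧
      (2 / 7 - ε) * ({q ∈ (Box y X : Set (Fin k → HeightOneSpectrum (𝓞 K))) | ∃ d, Fits y d0 q d}.ncard : ℝ) ≤
        ({q ∈ (Box y X : Set (Fin k → HeightOneSpectrum (𝓞 K))) | (∃ d, Fits y d0 q d) ∧
          ∀ d, Fits y d0 q d → ∀ (H : Type) [Field H] [NumberField H] [Algebra K H], Quad K H d →
            ∀ χ : (H ≃ₐ[K] H) →* ℂ_[2]ˣ, χ ≠ 1 → SigmaLeopoldt 2 K H S χ}.ncard : ℝ) ∧
      ∀ t : ℕ,
        ({q ∈ (Box y X : Set (Fin k → HeightOneSpectrum (𝓞 K))) | ∃ d, Fits y d0 q d ∧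
          ∃ (H : Type) (_ : Field H) (_ : NumberField H) (_ : Algebra K H), Quad K H d ∧
            ∃ χ : (H ≃ₐ[K] H) →* ℂ_[2]ˣ, χ ≠ 1 ∧ Ker K H S χ t}.ncard : ℝ) ≤
          (1 / (∏ i ∈ Finset.range t, ((2 : ℝ) ^ (i + 1) - 1)) + ε) *
            ({q ∈ (Box y X : Set (Fin k → HeightOneSpectrum (𝓞 K))) | ∃ d, Fits y d0 q d}.ncard : ℝ) :=
  fin Pool.Agent.Q1.LK.t_SgA F K hFK

end Pool.Agent.Results.MP_fc6b1e_nt.QuadraticCharactersAtTwo
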